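import Pool.Agent.H40.HP.Shift

set_option autoImplicit false

/-! Local approximations of the event that two infinite clusters meet a box. -/

namespace Pool.Agent.H29.HP

open MeasureTheory Pool.Agent.H29.FK Filter Topology

variable {d : ℕ}

/-- the box -/
def Lam (R : ℕ) : Set (Fin d → ℤ) := {x | ∀ i, |x i| ≤ R}

/-- joined inside the box -/
def Jn (R : ℕ) (ω : Cfg d) (a b : Fin d → ℤ) : Prop :=
  Relation.ReflTransGen (fun a b => Opn ω a b ∧ a ∈ Lam R ∧ b ∈ Lam R) a b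

/-- joined inside the box to the boundary of the box -/
def Out (R : ℕ) (ω : Cfg d) (u : Fin d → ℤ) : Prop :=
  ∃ y : Fin d → ℤ, y ∈ Lam R ∧ (∃ i, |y i| = R) ∧ Jn R ω u y

/-- the local event for two points -/
def Pr (R : ℕ) (ω : Cfg d) (u v : Fin d → ℤ) : Prop :=
  ¬ Jn R ω u v ∧ Out R ω u ∧ Out R ω v

/-- the local event -/
def AA (K R : ℕ) : Set (Cfg d) := {ω | ∃ u ∈ Lam K, ∃ v ∈ Lam K, Pr R ω u v}

theorem lam_fin (R : ℕ) : (Lam (d := d) R).Finite := by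
  refine (Set.finite_Icc (fun _ : Fin d => (-(R : ℤ))) (fun _ => (R : ℤ))).subset ?_
  intro x hx
  exact ⟨fun i => (abs_le.1 (hx i)).1, fun i => (abs_le.1 (hx i)).2⟩

theorem lam_mono {R R' : ℕ} (h : R ≤ R') : Lam (d := d) R ⊆ Lam R' := by
  intro x hx i
  exact (hx i).trans (by exact_mod_cast h)

theorem nn_near {a b : Fin d → ℤ} (h : NN s(a, b)) (l : Fin d) : |b l - a l| ≤ 1 := by
  obtain ⟨x, i, hx⟩ := h
  rw [Sym2.eq_iff] at hx
  have h1 : |(x + Pi.single i (1 : ℤ) : Fin d → ℤ) l - x l| ≤ 1 := by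
    rw [Pi.add_apply, add_sub_cancel_left]
    by_cases hl : l = i
    · subst hl; simp
    · rw [Pi.single_eq_of_ne hl]; simp
  rcases hx with ⟨rfl, rfl⟩ | ⟨rfl, rfl⟩
  · exact h1
  · rw [abs_sub_comm]; exact h1

theorem jn_opn {R : ℕ} {ω : Cfg d} {a b : Fin d → ℤ} (h : Jn R ω a b) :
    Relation.ReflTransGen (Opn ω) a b := by
  unfold Jn at h
  exact Relation.ReflTransGen.mono (fun _ _ h => h.1) _ _ h

theorem jn_mono {R R' : ℕ} (hR : R ≤ R') {ω : Cfg d} {a b : Fin d → ℤ} (h : Jn R ω a b) :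
    Jn R' ω a b := by
  unfold Jn at h ⊢
  exact Relation.ReflTransGen.mono (fun _ _ h => ⟨h.1, lam_mono hR h.2.1, lam_mono hR h.2.2⟩) _ _ h

theorem exit {R : ℕ} {ω : Cfg d} {u w : Fin d → ℤ} (hu : u ∈ Lam R)
    (h : Relation.ReflTransGen (Opn ω) u w) : (Jn R ω u w ∧ w ∈ Lam R) ∨ Out R ω u := by
  induction h with
  | refl => exact Or.inl ⟨Relation.ReflTransGen.refl, hu⟩
  | @tail b c _ hbc ih =>
    rcases ih with ⟨h1, h2⟩ | h1
    · by_cases hc : c ∈ Lam R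
      · exact Or.inl ⟨Relation.ReflTransGen.tail h1 ⟨hbc, h2, hc⟩, hc⟩
      · right
        refine ⟨b, h2, ?_, h1⟩
        unfold Lam at hc
        rw [Set.mem_ofPred_eq] at hc
        push Not at hc
        obtain ⟨i, hi⟩ := hc
        refine ⟨i, ?_⟩
        have h3 := h2 i
        have h4 := nn_near hbc.1 i
        have h5 : |c i| ≤ |b i| + |c i - b i| := by
          have := abs_add_le (b i) (c i - b i)
          rwa [add_sub_cancel] at this
        omega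
    · exact Or.inr h1

theorem out_mono {R R' : ℕ} (hR : R ≤ R') {ω : Cfg d} {u : Fin d → ℤ} (hu : u ∈ Lam R)
    (h : Out R' ω u) : Out R ω u := by
  obtain ⟨y, _, ⟨i, hi⟩, hy⟩ := h
  rcases exit hu (jn_opn hy) with ⟨h1, h2⟩ | h1
  · refine ⟨y, h2, ⟨i, ?_⟩, h1⟩
    have := h2 i
    have h3 : (R : ℤ) ≤ R' := by exact_mod_cast hR
    omega
  · exact h1

theorem pr_mono {R R' : ℕ} (hR : R ≤ R') {ω : Cfg d} {u v : Fin d → ℤ} (hu : u ∈ Lam R)
    (hv : v ∈ Lam R) (h : Pr R' ω u v) : Pr R ω u v :=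
  ⟨fun h' => h.1 (jn_mono hR h'), out_mono hR hu h.2.1, out_mono hR hv h.2.2⟩

theorem out_inf {R : ℕ} {ω : Cfg d} {u : Fin d → ℤ} (hu : u ∈ Lam R)
    (h : (clus ω u).Infinite) : Out R ω u := by
  by_contra hno
  apply h
  refine (lam_fin R).subset fun w hw => ?_
  rcases exit hu hw with h1 | h1
  · exact h1.2
  · exact absurd h1 hno

theorem two_sub {K R : ℕ} (hR : K ≤ R) : Two K (0 : Fin d → ℤ) ⊆ AA K R := by
  rintro ω ⟨u, v, hu, hv, hiu, hiv, hne⟩
  have hu' : u ∈ Lam K := fun i => by simpa using hu i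
  have hv' : v ∈ Lam K := fun i => by simpa using hv i
  exact ⟨u, hu', v, hv', fun h => hne (clus_eq (jn_opn h)), out_inf (lam_mono hR hu') hiu,
    out_inf (lam_mono hR hv') hiv⟩

theorem aa_anti {K R R' : ℕ} (hK : K ≤ R) (hR : R ≤ R') : AA (d := d) K R' ⊆ AA K R := by
  rintro ω ⟨u, hu, v, hv, h⟩
  exact ⟨u, hu, v, hv, pr_mono hR (lam_mono hK hu) (lam_mono hK hv) h⟩

theorem exists_lam (x : Fin d → ℤ) : ∃ R : ℕ, x ∈ Lam R := by
  refine ⟨∑ i, (x i).natAbs, fun i => ?_⟩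
  have h : (x i).natAbs ≤ ∑ i, (x i).natAbs :=
    Finset.single_le_sum (f := fun i => (x i).natAbs) (fun _ _ => Nat.zero_le _)
      (Finset.mem_univ i)
  rw [Int.abs_eq_natAbs]
  exact_mod_cast h

theorem exists_jn {ω : Cfg d} {u v : Fin d → ℤ} (h : Relation.ReflTransGen (Opn ω) u v) :
    ∃ R0 : ℕ, ∀ R ≥ R0, Jn R ω u v := by
  induction h with
  | refl => exact ⟨0, fun R _ => Relation.ReflTransGen.refl⟩
  | @tail b c _ hbc ih =>
    obtain ⟨R0, h0⟩ := ih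
    obtain ⟨R1, h1⟩ := exists_lam b
    obtain ⟨R2, h2⟩ := exists_lam c
    refine ⟨max R0 (max R1 R2), fun R hR => ?_⟩
    have e1 : R0 ≤ R := (le_max_left _ _).trans hR
    have e2 : R1 ≤ R := (le_max_left _ _).trans ((le_max_right _ _).trans hR)
    have e3 : R2 ≤ R := (le_max_right _ _).trans ((le_max_right _ _).trans hR)
    exact Relation.ReflTransGen.tail (h0 R e1) ⟨hbc, lam_mono e2 h1, lam_mono e3 h2⟩

theorem inter_sub {K : ℕ} {ω : Cfg d} (h : ∀ R ≥ K, ω ∈ AA K R) :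
    ω ∈ Two K (0 : Fin d → ℤ) := by
  classical
  obtain ⟨u, hu, v, hv, hP⟩ : ∃ u ∈ Lam (d := d) K, ∃ v ∈ Lam (d := d) K, ∀ R ≥ K, Pr R ω u v := by
    by_contra hno
    push Not at hno
    have hno' : ∀ p : (Fin d → ℤ) × (Fin d → ℤ), ∃ R : ℕ, K ≤ R ∧
        (p.1 ∈ Lam K → p.2 ∈ Lam K → ¬ Pr R ω p.1 p.2) := by
      intro p
      by_cases h1 : p.1 ∈ Lam K ∧ p.2 ∈ Lam K
      · obtain ⟨R, hR, hP⟩ := hno p.1 h1.1 p.2 h1.2
        exact ⟨R, hR, fun _ _ => hP⟩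
      · exact ⟨K, le_rfl, fun h2 h3 => absurd ⟨h2, h3⟩ h1⟩
    choose r hr1 hr2 using hno'
    set S := ((lam_fin (d := d) K).prod (lam_fin (d := d) K)).toFinset with hS
    set R := S.sup r ⊔ K with hR
    obtain ⟨u, hu, v, hv, hP⟩ := h R le_sup_right
    have hmem : (u, v) ∈ S := by
      rw [hS, Set.Finite.mem_toFinset]
      exact ⟨hu, hv⟩
    have hle : r (u, v) ≤ R := (Finset.le_sup (f := r) hmem).trans le_sup_left
    exact hr2 (u, v) hu hv (pr_mono hle (lam_mono (hr1 (u, v)) hu) (lam_mono (hr1 (u, v)) hv) hP)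
  have hinf : ∀ w : Fin d → ℤ, (∀ R ≥ K, Out R ω w) → (clus ω w).Infinite := by
    intro w hw hfin
    have hb : ∃ R0 : ℕ, ∀ y ∈ clus ω w, y ∈ Lam R0 := by
      choose r hr using fun y : Fin d → ℤ => exists_lam y
      refine ⟨hfin.toFinset.sup r, fun y hy => ?_⟩
      exact lam_mono (Finset.le_sup (f := r) (hfin.mem_toFinset.2 hy)) (hr y)
    obtain ⟨R0, hR0⟩ := hb
    obtain ⟨y, _, ⟨i, hi⟩, hy⟩ := hw (max (R0 + 1) K) (le_max_right _ _)
    have h1 := hR0 y (jn_opn hy) i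
    have h2 : R0 + 1 ≤ max (R0 + 1) K := le_max_left _ _
    omega
  refine ⟨u, v, fun i => by simpa using hu i, fun i => by simpa using hv i,
    hinf u fun R hR => (hP R hR).2.1, hinf v fun R hR => (hP R hR).2.2, ?_⟩
  intro heq
  have hv2 : v ∈ clus ω u := by rw [heq]; exact clus_self ω v
  obtain ⟨R0, hR0⟩ := exists_jn hv2
  exact (hP (max R0 K) (le_max_right _ _)).1 (hR0 _ (le_max_left _ _))

theorem edges_fin (R : ℕ) : {e : Ed d | ∀ x ∈ e.1, x ∈ Lam R}.Finite := by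
  have h1 : ((fun p : (Fin d → ℤ) × (Fin d → ℤ) => s(p.1, p.2)) ''
      (Lam (d := d) R ×ˢ Lam (d := d) R)).Finite := ((lam_fin R).prod (lam_fin R)).image _
  refine (h1.preimage (Subtype.val_injective (p := fun e : Sym2 (Fin d → ℤ) => NN e)).injOn).subset
    ?_
  rintro ⟨e, he⟩ h
  induction e with
  | _ x y =>
    exact ⟨(x, y), ⟨h x (Sym2.mem_mk_left x y), h y (Sym2.mem_mk_right x y)⟩, rfl⟩

theorem aa_fd (K R : ℕ) : FD (AA (d := d) K R) := by
  refine ⟨(edges_fin R).toFinset, ?_⟩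
  have key : ∀ ω ω' : Cfg d, (∀ e ∈ ((edges_fin (d := d) R).toFinset : Set (Ed d)), ω e = ω' e) →
      ω ∈ AA K R → ω' ∈ AA K R := by
    intro ω ω' h
    have hrel : (fun a b : Fin d → ℤ => Opn ω a b ∧ a ∈ Lam R ∧ b ∈ Lam R) =
        fun a b => Opn ω' a b ∧ a ∈ Lam R ∧ b ∈ Lam R := by
      funext a b
      apply propext
      have h2 : ∀ hnn : NN s(a, b), a ∈ Lam R → b ∈ Lam R →
          ω ⟨s(a, b), hnn⟩ = ω' ⟨s(a, b), hnn⟩ := by
        intro hnn ha hb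
        apply h
        rw [Set.Finite.coe_toFinset]
        intro x hx
        rcases Sym2.mem_iff.1 hx with rfl | rfl
        · exact ha
        · exact hb
      constructor
      · rintro ⟨⟨h3, h4⟩, h5, h6⟩
        exact ⟨⟨h3, by rw [← h2 h3 h5 h6]; exact h4⟩, h5, h6⟩
      · rintro ⟨⟨h3, h4⟩, h5, h6⟩
        exact ⟨⟨h3, by rw [h2 h3 h5 h6]; exact h4⟩, h5, h6⟩
    have hJ : ∀ a b, Jn R ω a b = Jn R ω' a b := by
      intro a b
      unfold Jn
      rw [hrel]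
    rintro ⟨u, hu, v, hv, hP⟩
    refine ⟨u, hu, v, hv, ?_⟩
    unfold Pr Out at hP ⊢
    simp only [← hJ]
    exact hP
  intro ω ω' h
  exact ⟨key ω ω' h, key ω' ω fun e he => (h e he).symm⟩

theorem opn_sh {y : Fin d → ℤ} {ω : Cfg d} {a b : Fin d → ℤ} :
    Opn (sh y ω) a b ↔ Opn ω (a + y) (b + y) := by
  constructor
  · rintro ⟨h, h'⟩
    exact ⟨nn_add y ⟨s(a, b), h⟩, h'⟩
  · rintro ⟨h, h'⟩
    have h1 : NN s(a, b) := by
      have := nn_add (-y) ⟨s(a + y, b + y), h⟩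
      simpa [Sym2.map_mk] using this
    exact ⟨h1, h'⟩

theorem rtg_sh {y : Fin d → ℤ} {ω : Cfg d} {a b : Fin d → ℤ} :
    Relation.ReflTransGen (Opn (sh y ω)) a b ↔ Relation.ReflTransGen (Opn ω) (a + y) (b + y) := by
  constructor
  · intro h
    exact Relation.ReflTransGen.lift (p := Opn ω) (fun x => x + y) (fun _ _ h => opn_sh.1 h) _ _ h
  · intro h
    have := Relation.ReflTransGen.lift (p := Opn (sh y ω)) (fun x => x - y)
      (fun a b h => opn_sh.2 (by simpa using h)) _ _ h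
    simpa [Function.onFun] using this

theorem two_sh {K : ℕ} {y : Fin d → ℤ} : Two K y ⊆ sh y ⁻¹' (Two K 0) := by
  rintro ω ⟨u, v, hu, hv, hiu, hiv, hne⟩
  have hinf : ∀ w : Fin d → ℤ, (clus ω w).Infinite → (clus (sh y ω) (w - y)).Infinite := by
    intro w hw
    have h1 : ((fun x => x - y) '' clus ω w).Infinite :=
      hw.image (fun a _ b _ h => by simpa using h)
    refine h1.mono ?_
    rintro _ ⟨x, hx, rfl⟩
    change Relation.ReflTransGen (Opn (sh y ω)) (w - y) (x - y)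
    rw [rtg_sh, sub_add_cancel, sub_add_cancel]
    exact hx
  refine ⟨u - y, v - y, fun i => by simpa using hu i, fun i => by simpa using hv i,
    hinf u hiu, hinf v hiv, ?_⟩
  intro heq
  apply hne
  have h1 : v - y ∈ clus (sh y ω) (u - y) := by
    rw [heq]; exact clus_self _ _
  have h2 : Relation.ReflTransGen (Opn (sh y ω)) (u - y) (v - y) := h1
  rw [rtg_sh, sub_add_cancel, sub_add_cancel] at h2
  exact clus_eq h2

end Pool.Agent.H29.HP
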