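import Pool.Agent.H40.HP.Fol
import Pool.Agent.H40.HP.Loc

set_option autoImplicit false

/-! Compactness: from invariant measures to all insertion tolerant measures. -/

namespace Pool.Agent.H29.HP

open MeasureTheory Pool.Agent.H29.FK Filter Topology

variable {d : ℕ}

theorem tend_fd {L : Filter ℕ} {μs : ℕ → ProbabilityMeasure (Cfg d)}
    {μ : ProbabilityMeasure (Cfg d)} (h : Tendsto μs L (𝓝 μ)) {B : Set (Cfg d)} (hB : FD B) :
    Tendsto (fun i => (μs i : Measure (Cfg d)) B) L (𝓝 ((μ : Measure (Cfg d)) B)) :=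
  ProbabilityMeasure.tendsto_measure_of_null_frontier_of_tendsto' h
    (by rw [hB.clopen.frontier_eq]; exact measure_empty)

theorem it_lim {L : Filter ℕ} [L.NeBot] {ε : ℝ} {μs : ℕ → ProbabilityMeasure (Cfg d)}
    {μ : ProbabilityMeasure (Cfg d)} (h : Tendsto μs L (𝓝 μ))
    (hs : ∀ i, IT ε (μs i : Measure (Cfg d))) : IT ε (μ : Measure (Cfg d)) := by
  classical
  intro e B hB hD
  set pe : Cfg d → Cfg d := fun ω => Function.update ω e false with hpe
  have hm : Measurable pe := by
    rw [measurable_pi_iff]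
    intro f
    by_cases hf : f = e
    · subst hf
      simp only [hpe, Function.update_self]
      exact measurable_const
    · simp only [hpe, Function.update_of_ne hf]
      exact measurable_pi_apply f
  have hS : MeasurableSet {ω : Cfg d | ω e = true} := meas_edge e true
  have key : ∀ C : Set (Cfg d), FD C →
      (ENNReal.ofReal ε • (μ : Measure (Cfg d)).map pe) C ≤
        (((μ : Measure (Cfg d)).restrict {ω | ω e = true}).map pe) C := by
    intro C hC
    rw [Measure.smul_apply, smul_eq_mul, Measure.map_apply hm hC.meas,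
      Measure.map_apply hm hC.meas, Measure.restrict_apply (hm hC.meas)]
    have hC1 : FD (pe ⁻¹' C) := by
      obtain ⟨F, hF⟩ := hC
      refine ⟨F, fun ω ω' hω => hF _ _ fun f hf => ?_⟩
      by_cases hfe : f = e
      · subst hfe
        simp [hpe]
      · simp only [hpe, Function.update_of_ne hfe]
        exact hω f hf
    have hC2 : Det {f | f ≠ e} (pe ⁻¹' C) := by
      intro ω ω' hω
      have : pe ω = pe ω' := by
        funext f
        by_cases hfe : f = e
        · subst hfe
          simp [hpe]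
        · simp only [hpe, Function.update_of_ne hfe]
          exact hω f hfe
      rw [Set.mem_preimage, Set.mem_preimage, this]
    have t1 := tend_fd h hC1
    have t2 := tend_fd h (hC1.inter (FD.edge e true))
    have t3 := ENNReal.Tendsto.const_mul (a := ENNReal.ofReal ε) t1
      (Or.inr ENNReal.ofReal_ne_top)
    exact le_of_tendsto_of_tendsto t3 t2
      (Eventually.of_forall fun i => hs i e _ (hm hC.meas) hC2)
  have h1 := le_fd key B
  rw [Measure.smul_apply, smul_eq_mul, Measure.map_apply hm hB, Measure.map_apply hm hB,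
    Measure.restrict_apply (hm hB)] at h1
  have hBB : pe ⁻¹' B = B := by
    ext ω
    refine hD (pe ω) ω fun f hf => ?_
    simp only [hpe]
    exact Function.update_of_ne hf _ _
  rw [hBB] at h1
  exact h1

theorem hinv_lim {L : Filter ℕ} [L.NeBot] {j : Fin d} {n : ℕ → ℕ} (hn : Tendsto n L atTop)
    {x : ℕ → Fin d → ℤ} {φ : ℕ → Measure (Cfg d)} [∀ i, IsProbabilityMeasure (φ i)]
    {μs : ℕ → ProbabilityMeasure (Cfg d)}
    (hμs : ∀ i, (μs i : Measure (Cfg d)) = avg j (n i) (x i) (φ i))
    {μ : ProbabilityMeasure (Cfg d)} (h : Tendsto μs L (𝓝 μ)) :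
    HInv j (μ : Measure (Cfg d)) := by
  have key : ∀ z : Fin d → ℤ, z j = 0 → ∀ B : Set (Cfg d), FD B →
      (μ : Measure (Cfg d)) (sh z ⁻¹' B) ≤ (μ : Measure (Cfg d)) B := by
    intro z hz B hB
    have t1 := tend_fd h (hB.sh z)
    have t2 := (tend_fd h hB).add ((lv_tend j z hz).comp hn)
    rw [add_zero] at t2
    refine le_of_tendsto_of_tendsto t1 t2 (Eventually.of_forall fun i => ?_)
    simp only [hμs, Function.comp]
    exact avg_shift_le j (n i) (x i) z (φ i) hB.meas
  intro z hz
  symm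
  refine ext_fd fun B hB => ?_
  rw [Measure.map_apply (meas_sh z) hB.meas]
  refine le_antisymm ?_ (key z hz B hB)
  have h1 := key (-z) (by simp [hz]) (sh z ⁻¹' B) (hB.sh z)
  have h2 : sh (-z) ⁻¹' (sh z ⁻¹' B) = B := by
    ext ω
    rw [Set.mem_preimage, Set.mem_preimage, sh_sh, add_neg_cancel, sh_zero]
  rwa [h2] at h1

theorem cp : CP := by
  intro d j ε hd hε H K η hη
  by_contra hcon
  push Not at hcon
  choose n hn φ hp hIT x0 hx using fun i : ℕ => hcon (i + 1)
  have hn0 : ∀ i, 0 < n i := fun i => lt_of_lt_of_le (Nat.succ_pos i) (hn i)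
  set μs : ℕ → ProbabilityMeasure (Cfg d) := fun i =>
    ⟨avg j (n i) (x0 i) (φ i), avg_prob j (hn0 i) (x0 i) (φ i)⟩ with hμs
  obtain ⟨μ, _, hμ⟩ := isCompact_univ.ultrafilter_le_nhds (Ultrafilter.map μs (hyperfilter ℕ))
    (by simp)
  have hlim : Tendsto μs (hyperfilter ℕ : Filter ℕ) (𝓝 μ) := hμ
  have hntop : Tendsto n atTop atTop := by
    refine tendsto_atTop_mono (fun i => ?_) tendsto_id
    exact (Nat.le_succ i).trans (hn i)
  have hnL : Tendsto n (hyperfilter ℕ : Filter ℕ) atTop :=
    hntop.mono_left Nat.hyperfilter_le_atTop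
  have hITμ : IT ε (μ : Measure (Cfg d)) :=
    it_lim hlim fun i => avg_it j (n i) (x0 i) (hIT i)
  have hHμ : HInv j (μ : Measure (Cfg d)) := hinv_lim hnL (fun i => rfl) hlim
  have hOne : One (μ : Measure (Cfg d)) := H _ inferInstance hITμ hHμ
  have hnull : (μ : Measure (Cfg d)) (Two K 0) = 0 := by
    refine measure_mono_null ?_ hOne
    rintro ω ⟨u, v, _, _, hu, hv, hne⟩ hω
    exact hne (hω u v hu hv)
  have hlow : ∀ R ≥ K, ENNReal.ofReal η ≤ (μ : Measure (Cfg d)) (AA K R) := by
    intro R hR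
    refine ge_of_tendsto (tend_fd hlim (aa_fd K R)) (Eventually.of_forall fun i => ?_)
    change ENNReal.ofReal η ≤ avg j (n i) (x0 i) (φ i) (AA K R)
    rw [avg_apply j (n i) (x0 i) (φ i) (aa_fd K R).meas]
    have h0 : ((hb j (n i)).card : ENNReal) ≠ 0 := by
      rw [hb_card]
      exact_mod_cast (pow_pos (hn0 i) _).ne'
    have h1 : ENNReal.ofReal (η * (n i : ℝ) ^ (d - 1)) =
        ((hb j (n i)).card : ENNReal) * ENNReal.ofReal η := by
      rw [ENNReal.ofReal_mul hη.le, mul_comm, hb_card]
      congr 1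
      rw [show ((n i : ℝ) ^ (d - 1)) = ((n i ^ (d - 1) : ℕ) : ℝ) by push_cast; rfl,
        ENNReal.ofReal_natCast]
    have h2 : ((hb j (n i)).card : ENNReal) * ENNReal.ofReal η ≤
        ∑ z ∈ hb j (n i), φ i (sh (x0 i + z) ⁻¹' (AA K R)) := by
      rw [← h1]
      refine (hx i).le.trans (Finset.sum_le_sum fun z _ => measure_mono ?_)
      exact two_sh.trans (Set.preimage_mono (two_sub hR))
    calc ENNReal.ofReal η = ((hb j (n i)).card : ENNReal)⁻¹ *
          (((hb j (n i)).card : ENNReal) * ENNReal.ofReal η) := by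
          rw [← mul_assoc, ENNReal.inv_mul_cancel h0 (ENNReal.natCast_ne_top _), one_mul]
      _ ≤ _ := by gcongr
  have hanti : Antitone (fun R : ℕ => AA (d := d) K (K + R)) := fun R R' h =>
    aa_anti (Nat.le_add_right K R) (Nat.add_le_add_left h K)
  have htend := tendsto_measure_iInter_atTop (μ := (μ : Measure (Cfg d)))
    (s := fun R : ℕ => AA (d := d) K (K + R)) (fun R => (aa_fd K (K + R)).meas.nullMeasurableSet)
    hanti ⟨0, measure_ne_top _ _⟩
  have h3 : ENNReal.ofReal η ≤ (μ : Measure (Cfg d)) (⋂ R : ℕ, AA (d := d) K (K + R)) :=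
    ge_of_tendsto htend (Eventually.of_forall fun R => hlow (K + R) (Nat.le_add_right K R))
  have h4 : (⋂ R : ℕ, AA (d := d) K (K + R)) ⊆ Two K 0 := by
    intro ω hω
    refine inter_sub fun R hR => ?_
    obtain ⟨r, rfl⟩ := Nat.exists_eq_add_of_le hR
    exact Set.mem_iInter.1 hω r
  have h5 := h3.trans (measure_mono h4)
  rw [hnull] at h5
  have : 0 < ENNReal.ofReal η := ENNReal.ofReal_pos.2 hη
  exact absurd h5 (not_le.2 this)

end Pool.Agent.H29.HP
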