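import Pool.Agent.H40.HP.Shift

set_option autoImplicit false

/-! The hyperplane boxes are a Folner sequence. -/

namespace Pool.Agent.H29.HP

open MeasureTheory Pool.Agent.H29.FK Filter Topology

variable {d : ℕ}

theorem card_lv1 (n : ℕ) (z : ℤ) :
    ((Finset.Ico (0 : ℤ) n).filter (fun t => z + t ∉ Finset.Ico (0 : ℤ) n)).card ≤ z.natAbs := by
  rcases le_total 0 z with h | h
  · have hs : (Finset.Ico (0 : ℤ) n).filter (fun t => z + t ∉ Finset.Ico (0 : ℤ) n) ⊆
        Finset.Ico ((n : ℤ) - z) n := by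
      intro t ht
      rw [Finset.mem_filter, Finset.mem_Ico, Finset.mem_Ico] at ht
      rw [Finset.mem_Ico]
      omega
    refine (Finset.card_le_card hs).trans ?_
    rw [Int.card_Ico]
    omega
  · have hs : (Finset.Ico (0 : ℤ) n).filter (fun t => z + t ∉ Finset.Ico (0 : ℤ) n) ⊆
        Finset.Ico (0 : ℤ) (-z) := by
      intro t ht
      rw [Finset.mem_filter, Finset.mem_Ico, Finset.mem_Ico] at ht
      rw [Finset.mem_Ico]
      omega
    refine (Finset.card_le_card hs).trans ?_
    rw [Int.card_Ico]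
    omega

theorem card_lvi (j i : Fin d) (hi : i ≠ j) (n : ℕ) (z : ℤ) :
    ((hb j n).filter (fun w => z + w i ∉ Finset.Ico (0 : ℤ) n)).card * n ≤
      z.natAbs * (hb j n).card := by
  classical
  set S : Fin d → Finset ℤ := fun l => if l = j then ({0} : Finset ℤ) else Finset.Ico (0 : ℤ) n
    with hS
  set S' : Fin d → Finset ℤ := fun l => if l = i then
    (Finset.Ico (0 : ℤ) n).filter (fun t => z + t ∉ Finset.Ico (0 : ℤ) n) else S l with hS'
  have h1 : (hb j n).filter (fun w => z + w i ∉ Finset.Ico (0 : ℤ) n) ⊆ Fintype.piFinset S' := by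
    intro w hw
    rw [Finset.mem_filter] at hw
    obtain ⟨hw1, hw2⟩ := hw
    unfold hb at hw1
    rw [Fintype.mem_piFinset] at hw1 ⊢
    intro l
    have h3 := hw1 l
    simp only [hS']
    by_cases hl : l = i
    · subst hl
      rw [if_pos rfl, Finset.mem_filter]
      rw [if_neg hi] at h3
      exact ⟨h3, hw2⟩
    · rw [if_neg hl]
      exact h3
  have h2 : (Fintype.piFinset S').card = (S' i).card * ∏ l ∈ Finset.univ.erase i, (S l).card := by
    rw [Fintype.card_piFinset, ← Finset.mul_prod_erase Finset.univ _ (Finset.mem_univ i)]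
    congr 1
    refine Finset.prod_congr rfl fun l hl => ?_
    simp only [hS']
    rw [if_neg (Finset.ne_of_mem_erase hl)]
  have h3 : (hb j n).card = n * ∏ l ∈ Finset.univ.erase i, (S l).card := by
    have : (hb j n) = Fintype.piFinset S := rfl
    rw [this, Fintype.card_piFinset, ← Finset.mul_prod_erase Finset.univ _ (Finset.mem_univ i)]
    congr 1
    simp only [hS]
    rw [if_neg hi]
    simp
  have h4 : (S' i).card ≤ z.natAbs := by
    simp only [hS']
    rw [if_pos trivial]
    exact card_lv1 n z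
  calc ((hb j n).filter (fun w => z + w i ∉ Finset.Ico (0 : ℤ) n)).card * n
      ≤ (Fintype.piFinset S').card * n := Nat.mul_le_mul_right _ (Finset.card_le_card h1)
    _ = (S' i).card * (n * ∏ l ∈ Finset.univ.erase i, (S l).card) := by rw [h2]; ring
    _ ≤ z.natAbs * (n * ∏ l ∈ Finset.univ.erase i, (S l).card) := Nat.mul_le_mul_right _ h4
    _ = _ := by rw [← h3]

theorem card_lv (j : Fin d) (n : ℕ) (z : Fin d → ℤ) (hz : z j = 0) :
    (lv j n z).card * n ≤ (∑ i, (z i).natAbs) * (hb j n).card := by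
  classical
  have h1 : (lv j n z).card ≤ ∑ i ∈ Finset.univ.erase j, ((hb j n).filter
      (fun w => z i + w i ∉ Finset.Ico (0 : ℤ) n)).card :=
    (Finset.card_le_card (lv_sub j n z hz)).trans Finset.card_biUnion_le
  calc (lv j n z).card * n ≤ (∑ i ∈ Finset.univ.erase j, ((hb j n).filter
      (fun w => z i + w i ∉ Finset.Ico (0 : ℤ) n)).card) * n := Nat.mul_le_mul_right _ h1
    _ = ∑ i ∈ Finset.univ.erase j, ((hb j n).filter
      (fun w => z i + w i ∉ Finset.Ico (0 : ℤ) n)).card * n := Finset.sum_mul _ _ _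
    _ ≤ ∑ i ∈ Finset.univ.erase j, (z i).natAbs * (hb j n).card :=
        Finset.sum_le_sum fun i hi => card_lvi j i (Finset.ne_of_mem_erase hi) n (z i)
    _ = (∑ i ∈ Finset.univ.erase j, (z i).natAbs) * (hb j n).card := (Finset.sum_mul _ _ _).symm
    _ ≤ _ := Nat.mul_le_mul_right _ (Finset.sum_le_sum_of_subset (Finset.erase_subset _ _))

theorem lv_tend (j : Fin d) (z : Fin d → ℤ) (hz : z j = 0) :
    Tendsto (fun n : ℕ => ((hb j n).card : ENNReal)⁻¹ * ((lv j n z).card : ENNReal)) atTop
      (𝓝 0) := by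
  have h : Tendsto (fun n : ℕ => ((∑ i, (z i).natAbs : ℕ) : ENNReal) / (n : ENNReal)) atTop
      (𝓝 0) := by
    have h1 := ENNReal.Tendsto.const_div (a := ((∑ i, (z i).natAbs : ℕ) : ENNReal))
      ENNReal.tendsto_nat_nhds_top (Or.inr (ENNReal.natCast_ne_top _))
    rw [ENNReal.div_top] at h1
    exact h1
  refine tendsto_of_tendsto_of_tendsto_of_le_of_le' tendsto_const_nhds h
    (Eventually.of_forall fun _ => bot_le) ?_
  filter_upwards [eventually_gt_atTop 0] with n hn
  have h0 : ((hb j n).card : ENNReal) ≠ 0 := by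
    rw [hb_card]
    exact_mod_cast (pow_pos hn _).ne'
  rw [ENNReal.le_div_iff_mul_le (Or.inl (by exact_mod_cast hn.ne'))
    (Or.inl (ENNReal.natCast_ne_top _)), mul_assoc]
  have h2 : ((lv j n z).card : ENNReal) * n ≤
      ((∑ i, (z i).natAbs : ℕ) : ENNReal) * ((hb j n).card : ENNReal) := by
    exact_mod_cast card_lv j n z hz
  calc ((hb j n).card : ENNReal)⁻¹ * (((lv j n z).card : ENNReal) * n)
      ≤ ((hb j n).card : ENNReal)⁻¹ *
        (((∑ i, (z i).natAbs : ℕ) : ENNReal) * ((hb j n).card : ENNReal)) := by gcongr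
    _ = ((∑ i, (z i).natAbs : ℕ) : ENNReal) *
        (((hb j n).card : ENNReal)⁻¹ * ((hb j n).card : ENNReal)) := by ring
    _ = _ := by rw [ENNReal.inv_mul_cancel h0 (ENNReal.natCast_ne_top _), mul_one]

end Pool.Agent.H29.HP
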