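import Pool.Agent.H40.HP.Top

set_option autoImplicit false

/-! Translations, averages of translated measures. -/

namespace Pool.Agent.H29.HP

open MeasureTheory Pool.Agent.H29.FK Filter Topology

variable {d : ℕ}

theorem shE_shE (y z : Fin d → ℤ) (e : Ed d) : shE y (shE z e) = shE (z + y) e := by
  apply Subtype.ext
  simp only [shE, Sym2.map_map]
  congr 1
  funext x
  simp [add_assoc]

theorem shE_zero (e : Ed d) : shE 0 e = e := by
  apply Subtype.ext
  simp [shE]

theorem shE_inj (z : Fin d → ℤ) : Function.Injective (shE (d := d) z) := by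
  intro e f h
  have h1 := congrArg (shE (-z)) h
  rw [shE_shE, shE_shE, add_neg_cancel, shE_zero, shE_zero] at h1
  exact h1

theorem sh_sh (z y : Fin d → ℤ) (ω : Cfg d) : sh z (sh y ω) = sh (z + y) ω := by
  funext e
  simp only [sh, shE_shE]

theorem sh_zero (ω : Cfg d) : sh 0 ω = ω := by
  funext e
  simp only [sh, shE_zero]

theorem meas_sh (z : Fin d → ℤ) : Measurable (sh (d := d) z) :=
  measurable_pi_iff.2 fun e => measurable_pi_apply (shE z e)

theorem FD.sh {B : Set (Cfg d)} (h : FD B) (z : Fin d → ℤ) : FD (HP.sh z ⁻¹' B) := by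
  classical
  obtain ⟨F, hF⟩ := h
  refine ⟨F.image (shE z), fun ω ω' hω => hF _ _ fun e he => ?_⟩
  exact hω _ (Finset.mem_coe.2 (Finset.mem_image_of_mem _ he))

theorem det_sh {e : Ed d} {B : Set (Cfg d)} (h : Det {f | f ≠ e} B) (z : Fin d → ℤ) :
    Det {f | f ≠ shE z e} (HP.sh z ⁻¹' B) := by
  intro ω ω' hω
  refine h _ _ fun f hf => hω _ ?_
  exact fun h' => hf (shE_inj z h')

theorem IT.map {ε : ℝ} {μ : Measure (Cfg d)} (h : IT ε μ) (z : Fin d → ℤ) :
    IT ε (μ.map (sh z)) := by
  intro e B hB hD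
  rw [Measure.map_apply (meas_sh z) hB, Measure.map_apply (meas_sh z) (hB.inter (meas_edge e true))]
  exact h (shE z e) (sh z ⁻¹' B) (meas_sh z hB) (det_sh hD z)

/-- the average over a hyperplane box of the translates -/
noncomputable def avg (j : Fin d) (n : ℕ) (x : Fin d → ℤ) (φ : Measure (Cfg d)) :
    Measure (Cfg d) :=
  ((hb j n).card : ENNReal)⁻¹ • ∑ z ∈ hb j n, φ.map (sh (x + z))

theorem avg_apply (j : Fin d) (n : ℕ) (x : Fin d → ℤ) (φ : Measure (Cfg d)) {B : Set (Cfg d)}
    (hB : MeasurableSet B) :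
    avg j n x φ B = ((hb j n).card : ENNReal)⁻¹ * ∑ z ∈ hb j n, φ (sh (x + z) ⁻¹' B) := by
  unfold avg
  rw [Measure.smul_apply, Measure.finsetSum_apply, smul_eq_mul]
  congr 1
  exact Finset.sum_congr rfl fun z _ => Measure.map_apply (meas_sh _) hB

theorem hb_card (j : Fin d) (n : ℕ) : (hb j n).card = n ^ (d - 1) := by
  unfold hb
  rw [Fintype.card_piFinset]
  rw [← Finset.mul_prod_erase Finset.univ _ (Finset.mem_univ j)]
  have h1 : ∏ i ∈ Finset.univ.erase j, (if i = j then ({0} : Finset ℤ)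
      else Finset.Ico (0 : ℤ) n).card = ∏ i ∈ Finset.univ.erase j, n := by
    refine Finset.prod_congr rfl fun i hi => ?_
    rw [if_neg (Finset.ne_of_mem_erase hi)]
    simp
  rw [h1, Finset.prod_const, Finset.card_erase_of_mem (Finset.mem_univ j)]
  simp

theorem avg_prob (j : Fin d) {n : ℕ} (hn : 0 < n) (x : Fin d → ℤ) (φ : Measure (Cfg d))
    [IsProbabilityMeasure φ] : IsProbabilityMeasure (avg j n x φ) := by
  constructor
  rw [avg_apply j n x φ MeasurableSet.univ]
  simp only [Set.preimage_univ, measure_univ, Finset.sum_const, nsmul_eq_mul, mul_one]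
  have h0 : ((hb j n).card : ENNReal) ≠ 0 := by
    rw [hb_card]
    exact_mod_cast (pow_pos hn _).ne'
  exact ENNReal.inv_mul_cancel h0 (ENNReal.natCast_ne_top _)

theorem avg_it {ε : ℝ} (j : Fin d) (n : ℕ) (x : Fin d → ℤ) {φ : Measure (Cfg d)}
    (h : IT ε φ) : IT ε (avg j n x φ) := by
  intro e B hB hD
  rw [avg_apply j n x φ hB, avg_apply j n x φ (hB.inter (meas_edge e true)), ← mul_assoc,
    mul_comm (ENNReal.ofReal ε), mul_assoc, Finset.mul_sum]
  gcongr with z hz
  have := h.map (x + z) e B hB hD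
  rw [Measure.map_apply (meas_sh _) hB,
    Measure.map_apply (meas_sh _) (hB.inter (meas_edge e true))] at this
  exact this

open Classical in
/-- the points which leave the box -/
noncomputable def lv (j : Fin d) (n : ℕ) (z : Fin d → ℤ) : Finset (Fin d → ℤ) :=
  (hb j n).filter (fun w => z + w ∉ hb j n)

open Classical in
theorem sum_shift_le (j : Fin d) (n : ℕ) (z : Fin d → ℤ) (f : (Fin d → ℤ) → ENNReal)
    (hf : ∀ w, f w ≤ 1) :
    ∑ w ∈ hb j n, f (z + w) ≤ ∑ w ∈ hb j n, f w + (lv j n z).card := by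
  rw [← Finset.sum_filter_add_sum_filter_not (hb j n) (fun w => z + w ∈ hb j n)]
  refine add_le_add ?_ ?_
  · rw [← Finset.sum_image (f := f) (g := fun w => z + w) (fun a _ b _ h => add_left_cancel h)]
    refine Finset.sum_le_sum_of_subset ?_
    intro y hy
    obtain ⟨w, hw, rfl⟩ := Finset.mem_image.1 hy
    exact (Finset.mem_filter.1 hw).2
  · calc ∑ w ∈ (hb j n).filter (fun w => z + w ∉ hb j n), f (z + w) ≤
          ∑ w ∈ (hb j n).filter (fun w => z + w ∉ hb j n), 1 :=
        Finset.sum_le_sum fun w _ => hf _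
      _ = _ := by simp [lv]

theorem avg_shift_le (j : Fin d) (n : ℕ) (x z : Fin d → ℤ) (φ : Measure (Cfg d))
    [IsProbabilityMeasure φ] {B : Set (Cfg d)} (hB : MeasurableSet B) :
    avg j n x φ (sh z ⁻¹' B) ≤
      avg j n x φ B + ((hb j n).card : ENNReal)⁻¹ * (lv j n z).card := by
  rw [avg_apply j n x φ hB, avg_apply j n x φ (meas_sh z hB), ← mul_add]
  gcongr
  have h := sum_shift_le j n z (fun w => φ (sh (x + w) ⁻¹' B)) (fun w => prob_le_one)
  refine le_trans (le_of_eq ?_) h
  refine Finset.sum_congr rfl fun w _ => ?_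
  rw [← Set.preimage_comp]
  congr 1
  ext ω
  simp only [Set.mem_preimage, Function.comp]
  rw [sh_sh]
  have : z + (x + w) = x + (z + w) := by abel
  rw [this]

open Classical in
theorem lv_sub (j : Fin d) (n : ℕ) (z : Fin d → ℤ) (hz : z j = 0) :
    lv j n z ⊆ (Finset.univ.erase j).biUnion (fun i => (hb j n).filter
      (fun w => z i + w i ∉ Finset.Ico (0 : ℤ) n)) := by
  intro w hw
  obtain ⟨h1, h2⟩ := Finset.mem_filter.1 hw
  rw [Finset.mem_biUnion]
  by_contra hno
  push Not at hno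
  apply h2
  have h1' := h1
  unfold hb at h1' ⊢
  rw [Fintype.mem_piFinset] at h1' ⊢
  intro i
  have h3 := h1' i
  by_cases hi : i = j
  · rw [if_pos hi] at h3 ⊢
    subst hi
    simp only [Finset.mem_singleton] at h3 ⊢
    simp [hz, h3]
  · rw [if_neg hi]
    have h4 := hno i (Finset.mem_erase.2 ⟨hi, Finset.mem_univ i⟩)
    rw [Finset.mem_filter] at h4
    push Not at h4
    exact h4 h1

end Pool.Agent.H29.HP
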