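import Pool.Agent.H29.HP.Defs

set_option autoImplicit false

/-! Finitely determined events: clopen, generating; comparison of measures. -/

namespace Pool.Agent.H29.HP

open MeasureTheory Pool.Agent.H29.FK Filter Topology

variable {d : ℕ}

/-- finitely determined events -/
def FD (B : Set (Cfg d)) : Prop := ∃ F : Finset (Ed d), Det (F : Set (Ed d)) B

theorem det_clopen (F : Finset (Ed d)) {B : Set (Cfg d)} (h : Det (F : Set (Ed d)) B) :
    IsClopen B := by
  have hc : Continuous (fun (ω : Cfg d) (e : F) => ω e.1) := by fun_prop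
  have he : B = (fun (ω : Cfg d) (e : F) => ω e.1) ⁻¹'
      ((fun (ω : Cfg d) (e : F) => ω e.1) '' B) := by
    ext ω
    constructor
    · intro hω
      exact ⟨ω, hω, rfl⟩
    · rintro ⟨ω', hω', h2⟩
      refine (h ω ω' fun e he => ?_).2 hω'
      exact (congrFun h2 ⟨e, he⟩).symm
  rw [he]
  exact (isClopen_discrete _).preimage hc

theorem FD.clopen {B : Set (Cfg d)} (h : FD B) : IsClopen B := by
  obtain ⟨F, hF⟩ := h
  exact det_clopen F hF

theorem FD.meas {B : Set (Cfg d)} (h : FD B) : MeasurableSet B :=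
  h.clopen.isOpen.measurableSet

theorem FD.inter {B B' : Set (Cfg d)} (h : FD B) (h' : FD B') : FD (B ∩ B') := by
  classical
  obtain ⟨F, hF⟩ := h
  obtain ⟨F', hF'⟩ := h'
  exact ⟨F ∪ F', (hF.mono (by simp)).inter (hF'.mono (by simp))⟩

theorem FD.edge (e : Ed d) (b : Bool) : FD {ω : Cfg d | ω e = b} :=
  ⟨{e}, det_edge (by simp) b⟩

theorem FD.of_cylinder {B : Set (Cfg d)} (h : B ∈ measurableCylinders (fun _ : Ed d => Bool)) :
    FD B := by
  rw [mem_measurableCylinders] at h
  obtain ⟨s, S, _, rfl⟩ := h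
  refine ⟨s, fun ω ω' hω => ?_⟩
  rw [mem_cylinder, mem_cylinder]
  have : s.restrict ω = s.restrict ω' := by
    funext e
    exact hω e.1 e.2
  rw [this]

theorem ext_fd {μ ν : Measure (Cfg d)} [IsFiniteMeasure μ]
    (h : ∀ B : Set (Cfg d), FD B → μ B = ν B) : μ = ν := by
  refine ext_of_generate_finite (measurableCylinders (fun _ : Ed d => Bool))
    (generateFrom_measurableCylinders).symm isPiSystem_measurableCylinders
    (fun B hB => h B (FD.of_cylinder hB)) (h _ ⟨∅, Det.univ _⟩)

theorem le_open {μ ν : Measure (Cfg d)} (h : ∀ B : Set (Cfg d), FD B → μ B ≤ ν B)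
    {U : Set (Cfg d)} (hU : IsOpen U) : μ U ≤ ν U := by
  classical
  set C : Finset (Ed d) → Set (Cfg d) := fun F => {ω | ∀ ω' : Cfg d, (∀ e ∈ F, ω e = ω' e) → ω' ∈ U}
    with hC
  have hdet : ∀ F : Finset (Ed d), Det (F : Set (Ed d)) (C F) := by
    intro F ω ω' hω
    constructor
    · intro h1 ω'' h2
      exact h1 ω'' fun e he => (hω e he).trans (h2 e he)
    · intro h1 ω'' h2
      exact h1 ω'' fun e he => (hω e he).symm.trans (h2 e he)
  have hUC : U = ⋃ F, C F := by
    ext ω
    rw [Set.mem_iUnion]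
    constructor
    · intro hω
      obtain ⟨I, u, hu, hI⟩ := isOpen_pi_iff.1 hU ω hω
      refine ⟨I, fun ω' hω' => hI ?_⟩
      intro e he
      rw [← hω' e he]
      exact (hu e he).2
    · rintro ⟨F, hF⟩
      exact hF ω fun e _ => rfl
  have hdir : Directed (· ⊆ ·) C := by
    intro F F'
    refine ⟨F ∪ F', ?_, ?_⟩
    · intro ω hω ω' hω'
      exact hω ω' fun e he => hω' e (Finset.mem_union_left _ he)
    · intro ω hω ω' hω'
      exact hω ω' fun e he => hω' e (Finset.mem_union_right _ he)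
  rw [hUC, hdir.measure_iUnion, hdir.measure_iUnion]
  exact iSup_mono fun F => h _ ⟨F, hdet F⟩

theorem le_fd {μ ν : Measure (Cfg d)} [IsFiniteMeasure ν]
    (h : ∀ B : Set (Cfg d), FD B → μ B ≤ ν B) (B : Set (Cfg d)) : μ B ≤ ν B := by
  rw [Set.measure_eq_iInf_isOpen B ν]
  refine le_iInf fun U => le_iInf fun hBU => le_iInf fun hU => ?_
  exact (measure_mono hBU).trans (le_open h hU)

end Pool.Agent.H29.HP
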